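import Pool.Agent.Work.MP_db9399_nc.Base
import Pool.Agent.Work.MP_db9399_dn.Interface

/-! THEOREM NC, block CLEAN (from CORE and STAR): the rest graph is coloured with clean colours. -/

set_option autoImplicit false
set_option linter.unusedSectionVars false

namespace Pool.Agent.Work.MP_db9399_nc.helper63

open Finset Classical
open Pool.Agent.Work.MP_db9399_all (nb)
open _root_.MP_db9399_co

universe u

section
variable {V : Type u} [Fintype V]

/-- `R` with the star vertex `none`, joined to the vertices whose colour is in `Cl` -/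
def starG (R : SimpleGraph V) (Cl : Finset ℕ) (c : V → ℕ) : SimpleGraph (Option V) where
  Adj x y := (∃ v w, x = some v ∧ y = some w ∧ R.Adj v w) ∨
    (x = none ∧ ∃ v, y = some v ∧ c v ∈ Cl) ∨ (y = none ∧ ∃ v, x = some v ∧ c v ∈ Cl)
  symm := ⟨by
    rintro x y (⟨v, w, h1, h2, h3⟩ | ⟨h1, h2⟩ | ⟨h1, h2⟩)
    · exact Or.inl ⟨w, v, h2, h1, h3.symm⟩
    · exact Or.inr (Or.inr ⟨h1, h2⟩)
    · exact Or.inr (Or.inl ⟨h1, h2⟩)⟩
  loopless := ⟨by
    rintro x (⟨v, w, h1, h2, h3⟩ | ⟨h1, v, h2, _⟩ | ⟨h1, v, h2, _⟩)
    · rw [h1] at h2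
      rw [Option.some_inj.mp h2] at h3
      exact R.loopless.irrefl w h3
    · rw [h1] at h2; exact absurd h2 (by simp)
    · rw [h1] at h2; exact absurd h2 (by simp)⟩

variable {R : SimpleGraph V} {Cl : Finset ℕ} {c : V → ℕ}

theorem star_some {v w : V} : (starG R Cl c).Adj (some v) (some w) ↔ R.Adj v w := by
  simp [starG]

theorem star_none {v : V} : (starG R Cl c).Adj none (some v) ↔ c v ∈ Cl := by
  simp [starG]

theorem star_none' {v : V} : (starG R Cl c).Adj (some v) none ↔ c v ∈ Cl := by
  simp [starG]

theorem star_nn : ¬ (starG R Cl c).Adj none none := (starG R Cl c).loopless.irrefl none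

theorem card_some (v : V) : (nb (starG R Cl c) (some v)).card ≤
    (nb R v).card + (if c v ∈ Cl then 1 else 0) := by
  have h : nb (starG R Cl c) (some v) ⊆ (nb R v).image some ∪
      (if c v ∈ Cl then {none} else ∅) := by
    intro y hy
    have hy := mem_nb.mp hy
    rcases y with _ | w
    · rw [star_none'] at hy
      rw [if_pos hy]
      exact mem_union_right _ (mem_singleton_self _)
    · rw [star_some] at hy
      exact mem_union_left _ (mem_image_of_mem _ (mem_nb.mpr hy))
  refine (card_le_card h).trans ((card_union_le _ _).trans ?_)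
  apply Nat.add_le_add card_image_le
  split_ifs <;> simp

theorem card_none (hrep : ∀ v w, v ≠ w → c v = c w → c v ∉ Cl) {a : ℕ} (ha : a ∈ Cl)
    (hac : ∀ v, c v ≠ a) : (nb (starG R Cl c) none).card + 1 ≤ Cl.card := by
  have h : (nb (starG R Cl c) none).card ≤ (Cl.erase a).card := by
    apply Finset.card_le_card_of_injOn (fun o => o.elim 0 c)
    · intro y hy
      have hy := mem_nb.mp (mem_coe.mp hy)
      rcases y with _ | v
      · exact absurd hy star_nn
      · rw [star_none] at hy
        exact mem_coe.mpr (mem_erase.mpr ⟨hac v, hy⟩)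
    · intro y hy z hz hyz
      have hy := mem_nb.mp (mem_coe.mp hy)
      have hz := mem_nb.mp (mem_coe.mp hz)
      rcases y with _ | v
      · exact absurd hy star_nn
      · rcases z with _ | w
        · exact absurd hz star_nn
        · by_contra hne
          rw [star_none] at hy
          exact hrep v w (fun h => hne (by rw [h])) hyz hy
  rw [card_erase_of_mem ha] at h
  have : 0 < Cl.card := card_pos.mpr ⟨a, ha⟩
  omega

end

theorem stmt_CLEAN (hCORE : Pool.Agent.Work.MP_db9399_dn.Stmt_CORE.{u}) (hSTAR : Stmt_STAR.{u}) :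
    Stmt_CLEAN.{u} := by
  intro V _ R Cl c W hrep hdeg hdegW hind hfree
  obtain ⟨a, ha, hac⟩ := hfree
  have hcore := hCORE (starG R Cl c) Cl.card (W.map Function.Embedding.some)
    (by
      intro y hy
      rcases y with _ | v
      · exact card_none hrep ha hac
      · have hv : v ∉ W := fun h => hy (mem_map_of_mem _ h)
        exact (Nat.add_le_add_right (card_some v) 1).trans (hdeg v hv))
    (by
      intro y hy
      rw [mem_map] at hy
      obtain ⟨v, hv, rfl⟩ := hy
      exact (card_some v).trans (hdegW v hv))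
    (by
      intro y hy z hz h
      rw [mem_map] at hy hz
      obtain ⟨v, hv, rfl⟩ := hy
      obtain ⟨w, hw, rfl⟩ := hz
      exact hind v hv w hw (star_some.mp h))
  obtain ⟨t0, hsym, hlt, hinj⟩ := hcore
  let φ : ℕ → ℕ := fun i => if h : i < Cl.card then Cl.orderEmbOfFin rfl ⟨i, h⟩ else 0
  have hφ : ∀ i, i < Cl.card → φ i ∈ Cl := by
    intro i hi
    simp only [φ, dif_pos hi]
    exact Finset.orderEmbOfFin_mem Cl rfl _
  have hφinj : ∀ i j, i < Cl.card → j < Cl.card → φ i = φ j → i = j := by
    intro i j hi hj h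
    simp only [φ, dif_pos hi, dif_pos hj] at h
    have := (Cl.orderEmbOfFin rfl).injective h
    exact Fin.mk.inj_iff.mp this
  have hP : PEC (starG R Cl c) Cl (fun x y => φ (t0 x y)) := by
    refine ⟨fun x y => by simp only [hsym x y], fun x y h => hφ _ (hlt x y h), ?_⟩
    intro x y hy z hz h
    exact hinj x hy hz (hφinj _ _ (hlt x y (mem_nb.mp hy)) (hlt x z (mem_nb.mp hz)) h)
  obtain ⟨t1, h1, h2⟩ := hSTAR (starG R Cl c) Cl _ none (fun o => o.elim 0 c) hP
    (by
      intro y hy
      have hy := mem_nb.mp hy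
      rcases y with _ | v
      · exact absurd hy star_nn
      · show c v ∈ Cl
        exact star_none.mp hy)
    (by
      intro y hy z hz hyz
      have hy := mem_nb.mp (mem_coe.mp hy)
      have hz := mem_nb.mp (mem_coe.mp hz)
      rcases y with _ | v
      · exact absurd hy star_nn
      · rcases z with _ | w
        · exact absurd hz star_nn
        · by_contra hne
          rw [star_none] at hy
          exact hrep v w (fun h => hne (by rw [h])) hyz hy)
  refine ⟨fun v w => t1 (some v) (some w), ⟨?_, ?_, ?_⟩, ?_⟩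
  · intro v w
    exact h1.sym _ _
  · intro v w hvw
    exact h1.mem _ _ (star_some.mpr hvw)
  · intro v w hw w' hw' h
    have h3 := h1.inj (some v) (mem_coe.mpr (mem_nb.mpr (star_some.mpr (mem_nb.mp hw))))
      (mem_coe.mpr (mem_nb.mpr (star_some.mpr (mem_nb.mp hw')))) h
    exact Option.some_inj.mp h3
  · intro v w hvw heq
    by_cases hv : c v ∈ Cl
    · have h3 : t1 none (some v) = c v := h2 (some v) (mem_nb.mpr (star_none.mpr hv))
      have h4 : t1 (some v) none = c v := by rw [h1.sym]; exact h3
      have h5 := h1.inj (some v) (mem_coe.mpr (mem_nb.mpr (star_some.mpr hvw)))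
        (mem_coe.mpr (mem_nb.mpr (star_none'.mpr hv))) (heq.trans h4.symm)
      exact absurd h5 (by simp)
    · apply hv
      rw [← heq]
      exact h1.mem _ _ (star_some.mpr hvw)

end Pool.Agent.Work.MP_db9399_nc.helper63
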