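import Pool.Agent.Work.MP_db9399_nc.Base

/-! THEOREM NC, block STAR: the colours of the edges at one vertex can be prescribed. -/

set_option autoImplicit false

namespace Pool.Agent.Work.MP_db9399_nc.helper63

open Finset Classical
open Pool.Agent.Work.MP_db9399_all (nb)
open _root_.MP_db9399_co

universe u

section
variable {V : Type u} [Fintype V]

/-- the edges with colours `i` and `j` -/
noncomputable def kp (G : SimpleGraph V) (t : V → V → ℕ) (i j : ℕ) : SimpleGraph V where
  Adj x y := G.Adj x y ∧ (t x y = i ∨ t x y = j) ∧ (t y x = i ∨ t y x = j)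
  symm := ⟨fun _ _ h => ⟨h.1.symm, h.2.2, h.2.1⟩⟩
  loopless := ⟨fun x h => G.loopless.irrefl x h.1⟩

/-- swapping two colours on the component of `z` -/
theorem swap_at {G : SimpleGraph V} {C : Finset ℕ} {t : V → V → ℕ} (h : PEC G C t) (z : V)
    {i j : ℕ} (hi : i ∈ C) (hj : j ∈ C) :
    ∃ t' : V → V → ℕ, PEC G C t' ∧ ∀ v, G.Adj z v → t' z v = Equiv.swap i j (t z v) := by
  let K := kp G t i j
  have hK : ∀ x y, G.Adj x y → (t x y = i ∨ t x y = j) →
      K.connectedComponentMk x = K.connectedComponentMk y := by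
    intro x y hxy ht
    apply SimpleGraph.ConnectedComponent.connectedComponentMk_eq_of_adj
    exact ⟨hxy, ht, by rw [h.sym y x]; exact ht⟩
  let P : V → Prop := fun x => K.connectedComponentMk x = K.connectedComponentMk z
  let t' : V → V → ℕ := fun x y =>
    if G.Adj x y ∧ (P x ∨ P y) then Equiv.swap i j (t x y) else t x y
  have h1 : ∀ x y, G.Adj x y → P x → t' x y = Equiv.swap i j (t x y) := by
    intro x y hxy hx
    exact if_pos ⟨hxy, Or.inl hx⟩
  have h2 : ∀ x y, G.Adj x y → ¬ P x → t' x y = t x y := by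
    intro x y hxy hx
    by_cases hy : P y
    · have h3 : ¬ (t x y = i ∨ t x y = j) := by
        intro h4
        apply hx
        show K.connectedComponentMk x = K.connectedComponentMk z
        rw [hK x y hxy h4]
        exact hy
      push Not at h3
      show (if G.Adj x y ∧ (P x ∨ P y) then Equiv.swap i j (t x y) else t x y) = t x y
      rw [if_pos ⟨hxy, Or.inr hy⟩, Equiv.swap_apply_of_ne_of_ne h3.1 h3.2]
    · show (if G.Adj x y ∧ (P x ∨ P y) then Equiv.swap i j (t x y) else t x y) = t x y
      rw [if_neg]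
      rintro ⟨_, h4 | h4⟩
      · exact hx h4
      · exact hy h4
  have hsC : ∀ a ∈ C, Equiv.swap i j a ∈ C := by
    intro a ha
    by_cases e1 : a = i
    · rw [e1, Equiv.swap_apply_left]; exact hj
    · by_cases e2 : a = j
      · rw [e2, Equiv.swap_apply_right]; exact hi
      · rw [Equiv.swap_apply_of_ne_of_ne e1 e2]; exact ha
  refine ⟨t', ⟨?_, ?_, ?_⟩, fun v hv => h1 z v hv rfl⟩
  · intro v w
    show (if G.Adj v w ∧ (P v ∨ P w) then Equiv.swap i j (t v w) else t v w) =
      (if G.Adj w v ∧ (P w ∨ P v) then Equiv.swap i j (t w v) else t w v)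
    rw [h.sym w v]
    have h3 : (G.Adj v w ∧ (P v ∨ P w)) ↔ (G.Adj w v ∧ (P w ∨ P v)) := by
      rw [G.adj_comm, or_comm]
    by_cases h4 : G.Adj v w ∧ (P v ∨ P w)
    · rw [if_pos h4, if_pos (h3.mp h4)]
    · rw [if_neg h4, if_neg (fun h5 => h4 (h3.mpr h5))]
  · intro v w hvw
    by_cases hv : P v
    · rw [h1 v w hvw hv]
      exact hsC _ (h.mem v w hvw)
    · rw [h2 v w hvw hv]
      exact h.mem v w hvw
  · intro v w hw w' hw' heq
    have hw1 : G.Adj v w := mem_nb.mp hw
    have hw1' : G.Adj v w' := mem_nb.mp hw'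
    by_cases hv : P v
    · rw [h1 v w hw1 hv, h1 v w' hw1' hv] at heq
      exact h.inj v hw hw' ((Equiv.swap i j).injective heq)
    · rw [h2 v w hw1 hv, h2 v w' hw1' hv] at heq
      exact h.inj v hw hw' heq

end

theorem stmt_STAR : Stmt_STAR.{u} := by
  intro V _ G C t z c ht hc hinj
  have key : ∀ A : Finset V, A ⊆ nb G z →
      ∃ t' : V → V → ℕ, PEC G C t' ∧ ∀ v ∈ A, t' z v = c v := by
    intro A
    induction A using Finset.induction_on with
    | empty => exact fun _ => ⟨t, ht, fun v hv => absurd hv (Finset.notMem_empty v)⟩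
    | insert v A hvA ih =>
      intro hA
      obtain ⟨t1, h1, h2⟩ := ih ((Finset.subset_insert v A).trans hA)
      have hvz : v ∈ nb G z := hA (Finset.mem_insert_self v A)
      have hzv : G.Adj z v := mem_nb.mp hvz
      obtain ⟨t2, h3, h4⟩ := swap_at h1 z (h1.mem z v hzv) (hc v hvz)
      refine ⟨t2, h3, ?_⟩
      intro a ha
      rw [Finset.mem_insert] at ha
      by_cases hav : a = v
      · rw [hav, h4 v hzv, Equiv.swap_apply_left]
      · have haA : a ∈ A := ha.resolve_left hav
        have haz : a ∈ nb G z := hA (Finset.mem_insert_of_mem haA)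
        rw [h4 a (mem_nb.mp haz), h2 a haA, Equiv.swap_apply_of_ne_of_ne]
        · rw [← h2 a haA]
          intro h5
          exact hav (h1.inj z haz hvz h5)
        · intro h5
          exact hav (hinj haz hvz h5)
  obtain ⟨t', h1, h2⟩ := key (nb G z) (Finset.Subset.refl _)
  exact ⟨t', h1, h2⟩

end Pool.Agent.Work.MP_db9399_nc.helper63
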